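import Pool.Agent.Helper61.MI.Coord

set_option autoImplicit false

/-! Module D (CONT): the ideal of the 22 points is contained in weighted ideals. -/

noncomputable section

namespace Pool.Agent.Helper61.MI

open MvPolynomial

/-! ### Auxiliary lemmas -/

namespace Cont

/-- Evaluation of a homogeneous component at a multiple. -/
lemma eval_smul_component (g : S) (q : Fin 3 → ℂ) (t : ℂ) (d : ℕ) :
    eval (t • q) (homogeneousComponent d g) = t ^ d * eval q (homogeneousComponent d g) := by
  rw [eval_eq', eval_eq', Finset.mul_sum]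
  refine Finset.sum_congr rfl fun e he => ?_
  have hd : ∑ i, e i = d := by
    have h1 := (homogeneousComponent_isHomogeneous d g).degree_eq_sum_deg_support he
    rw [h1]
    exact (Finset.sum_subset (Finset.subset_univ _) fun i _ hi => by simpa using hi).symm
  simp only [Pi.smul_apply, smul_eq_mul, mul_pow, Finset.prod_mul_distrib]
  rw [Finset.prod_pow_eq_pow_sum, hd]
  ring

/-- If `g` vanishes on the line through `q`, so do its homogeneous components. -/
lemma eval_component_eq_zero (g : S) (q : Fin 3 → ℂ) (h : ∀ t : ℂ, eval (t • q) g = 0) (d : ℕ) :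
    eval q (homogeneousComponent d g) = 0 := by
  classical
  set P : Polynomial ℂ := ∑ k ∈ Finset.range (g.totalDegree + 1),
    Polynomial.C (eval q (homogeneousComponent k g)) * Polynomial.X ^ k with hP
  have hP0 : P = 0 := by
    apply Polynomial.funext
    intro t
    have h1 := h t
    rw [← sum_homogeneousComponent g, map_sum] at h1
    simp only [eval_smul_component] at h1
    rw [hP]
    simp only [Polynomial.eval_finsetSum, Polynomial.eval_mul, Polynomial.eval_C,
      Polynomial.eval_pow, Polynomial.eval_X, Polynomial.eval_zero]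
    rw [← h1]
    refine Finset.sum_congr rfl fun k _ => mul_comm _ _
  by_cases hd : d ≤ g.totalDegree
  · have h2 : P.coeff d = eval q (homogeneousComponent d g) := by
      rw [hP, Polynomial.finsetSum_coeff]
      simp only [Polynomial.coeff_C_mul, Polynomial.coeff_X_pow]
      rw [Finset.sum_eq_single d]
      · simp
      · intro b _ hb
        simp [hb.symm]
      · intro hn
        exact absurd (Finset.mem_range.2 (Nat.lt_succ_of_le hd)) hn
    rw [← h2, hP0, Polynomial.coeff_zero]
  · rw [homogeneousComponent_eq_zero _ _ (not_le.1 hd), map_zero]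

/-- A polynomial of degree `≤ D` with more than `D` roots is zero. -/
lemma coeffs_eq_zero (c : ℕ → ℂ) (D : ℕ) (R : Finset ℂ) (hR : D < R.card)
    (h : ∀ r ∈ R, ∑ a ∈ Finset.range (D + 1), c a * r ^ a = 0) (a : ℕ) (ha : a ≤ D) : c a = 0 := by
  set P : Polynomial ℂ := ∑ k ∈ Finset.range (D + 1), Polynomial.C (c k) * Polynomial.X ^ k with hP
  have hdeg : P.natDegree ≤ D := by
    rw [hP]
    refine Polynomial.natDegree_sum_le_of_forall_le _ _ fun k hk => ?_
    exact (Polynomial.natDegree_C_mul_X_pow_le _ _).trans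
      (Nat.lt_succ_iff.1 (Finset.mem_range.1 hk))
  have hP0 : P = 0 := by
    refine Polynomial.eq_zero_of_natDegree_lt_card_of_eval_eq_zero' P R (fun r hr => ?_)
      (lt_of_le_of_lt hdeg hR)
    rw [hP]
    simpa [Polynomial.eval_finsetSum] using h r hr
  have h2 : P.coeff a = c a := by
    rw [hP, Polynomial.finsetSum_coeff]
    simp only [Polynomial.coeff_C_mul, Polynomial.coeff_X_pow]
    rw [Finset.sum_eq_single a]
    · simp
    · intro b _ hb
      simp [hb.symm]
    · intro hn
      exact absurd (Finset.mem_range.2 (Nat.lt_succ_of_le ha)) hn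
  rw [← h2, hP0, Polynomial.coeff_zero]

/-- The exponent with entries `x, y, z`. -/
def ex (x y z : ℕ) : Fin 3 →₀ ℕ := Finsupp.equivFunOnFinite.symm ![x, y, z]

@[simp] lemma ex_0 (x y z : ℕ) : ex x y z 0 = x := rfl
@[simp] lemma ex_1 (x y z : ℕ) : ex x y z 1 = y := rfl
@[simp] lemma ex_2 (x y z : ℕ) : ex x y z 2 = z := rfl

lemma ex_eq (e : Fin 3 →₀ ℕ) : e = ex (e 0) (e 1) (e 2) := by
  ext i
  fin_cases i <;> rfl

/-- A binary form as a polynomial in one variable. -/
lemma eval_binary (g : S) (d : ℕ) (q : Fin 3 → ℂ) (φ : ℕ → ℕ → Fin 3 →₀ ℕ) (i j k : Fin 3)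
    (hi : q i = 0)
    (hφj : ∀ a b, φ a b j = a) (hsum : ∀ a b, ∑ l, φ a b l = a + b)
    (hprod : ∀ a b, ∏ l, q l ^ φ a b l = q j ^ a * q k ^ b)
    (hφ : ∀ e : Fin 3 →₀ ℕ, e i = 0 → e = φ (e j) (e k)) :
    eval q (homogeneousComponent d g) =
      ∑ a ∈ Finset.range (d + 1), coeff (φ a (d - a)) g * (q j ^ a * q k ^ (d - a)) := by
  classical
  have key : ∀ e : Fin 3 →₀ ℕ, e ∉ (Finset.range (d + 1)).image (fun a => φ a (d - a)) →
      coeff e (homogeneousComponent d g) * ∏ l, q l ^ e l = 0 := by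
    intro e he
    by_cases hei : e i = 0
    · rw [coeff_homogeneousComponent]
      split_ifs with hdeg
      · exfalso
        apply he
        rw [Finsupp.degree_eq_sum] at hdeg
        have h1 : e j + e k = d := by
          rw [← hdeg]
          conv_rhs => rw [hφ e hei]
          rw [hsum]
        rw [Finset.mem_image]
        refine ⟨e j, Finset.mem_range.2 (by omega), ?_⟩
        rw [show d - e j = e k by omega]
        exact (hφ e hei).symm
      · simp
    · have h0 : ∏ l, q l ^ e l = 0 := by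
        apply Finset.prod_eq_zero (Finset.mem_univ i)
        rw [hi, zero_pow hei]
      rw [h0, mul_zero]
  have hinj : Set.InjOn (fun a => φ a (d - a)) ↑(Finset.range (d + 1)) := by
    intro a _ b _ hab
    have := congrArg (fun f : Fin 3 →₀ ℕ => f j) hab
    simpa [hφj] using this
  rw [eval_eq']
  rw [show ∑ e ∈ (homogeneousComponent d g).support,
      coeff e (homogeneousComponent d g) * ∏ l, q l ^ e l =
      ∑ e ∈ (homogeneousComponent d g).support ∪ (Finset.range (d + 1)).image (fun a => φ a (d - a)),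
      coeff e (homogeneousComponent d g) * ∏ l, q l ^ e l from
    Finset.sum_subset Finset.subset_union_left fun e _ he => by
      rw [notMem_support_iff.1 he, zero_mul]]
  rw [← Finset.sum_subset (Finset.subset_union_right (s₁ := (homogeneousComponent d g).support)
    (s₂ := (Finset.range (d + 1)).image (fun a => φ a (d - a)))) fun e _ he => key e he]
  rw [Finset.sum_image hinj]
  refine Finset.sum_congr rfl fun a ha => ?_
  have ha' : a ≤ d := Nat.lt_succ_iff.1 (Finset.mem_range.1 ha)
  rw [coeff_homogeneousComponent, if_pos, hprod]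
  rw [Finsupp.degree_eq_sum, hsum]
  omega

/-- The coordinates of a point. -/
def co (ℓ : Fin 3 → Fin 3 → ℂ) (p : Plane) : Fin 3 → ℂ := fun i => ∑ j, ℓ i j * p.rep j

lemma onLine_iff (ℓ : Fin 3 → Fin 3 → ℂ) (p : Plane) (i : Fin 3) :
    OnLine (ℓ i) p ↔ co ℓ p i = 0 := Iff.rfl

lemma eq_of_co_smul (ℓ : Fin 3 → Fin 3 → ℂ) (hℓ : LinearIndependent ℂ ℓ) (p p' : Plane) (c : ℂ)
    (h : co ℓ p' = c • co ℓ p) : p' = p := by
  have h1 : (Matrix.of ℓ).mulVec p'.rep = (Matrix.of ℓ).mulVec (c • p.rep) := by
    rw [Matrix.mulVec_smul]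
    exact h
  have hu : IsUnit (Matrix.of ℓ) := by
    rw [Matrix.isUnit_iff_isUnit_det]
    exact isUnit_det ℓ hℓ
  have h2 : p'.rep = c • p.rep := Matrix.mulVec_injective_of_isUnit hu h1
  rw [← p'.mk_rep, ← p.mk_rep]
  rw [Projectivization.mk_eq_mk_iff']
  exact ⟨c, h2.symm⟩

lemma eval_coord (ℓ : Fin 3 → Fin 3 → ℂ) (hℓ : LinearIndependent ℂ ℓ) (f : S) (x : Fin 3 → ℂ) :
    eval (fun i => ∑ j, ℓ i j * x j) ((coord ℓ hℓ).symm f) = eval x f := by
  conv_rhs => rw [← (coord ℓ hℓ).apply_symm_apply f]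
  rw [coord_apply]
  have h : ∀ g : S, eval x (aeval (fun i => lin (ℓ i)) g) =
      eval (fun i => ∑ j, ℓ i j * x j) g := by
    intro g
    induction g using MvPolynomial.induction_on with
    | C a => simp
    | add p q hp hq => rw [map_add, map_add, map_add, hp, hq]
    | mul_X p i hp => rw [map_mul, map_mul, map_mul, hp]; simp [lin]
  rw [h]

/-- The homogeneous components of `f` in coordinates vanish at the coordinates of a point. -/
lemma eval_co_eq_zero (ℓ : Fin 3 → Fin 3 → ℂ) (hℓ : LinearIndependent ℂ ℓ) (Z : Set Plane)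
    (f : S) (hf : f ∈ idealOf Z) (p : Plane) (hp : p ∈ Z) (d : ℕ) :
    eval (co ℓ p) (homogeneousComponent d ((coord ℓ hℓ).symm f)) = 0 := by
  apply eval_component_eq_zero
  intro t
  have h1 : t • co ℓ p = fun i => ∑ j, ℓ i j * (t • p.rep) j := by
    funext i
    simp only [co, Pi.smul_apply, smul_eq_mul, Finset.mul_sum]
    refine Finset.sum_congr rfl fun j _ => by ring
  rw [h1, eval_coord]
  have h2 := hf (t • p.rep) ⟨p, hp, t, rfl⟩
  rwa [aeval_eq_eval] at h2

/-- The common argument: a binary form of degree `d` with more zeros than its degree allows. -/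
lemma binary_zero (g : S) (d D : ℕ) (hD : D ≤ d) (φ : ℕ → ℕ → Fin 3 →₀ ℕ) (i j k : Fin 3)
    (hφj : ∀ a b, φ a b j = a) (hsum : ∀ a b, ∑ l, φ a b l = a + b)
    (hprod : ∀ (q : Fin 3 → ℂ) a b, q i = 0 → ∏ l, q l ^ φ a b l = q j ^ a * q k ^ b)
    (hφ : ∀ e : Fin 3 →₀ ℕ, e i = 0 → e = φ (e j) (e k))
    (htop : ∀ a, D < a → a ≤ d → coeff (φ a (d - a)) g = 0)
    (Q : Finset (Fin 3 → ℂ)) (hQi : ∀ q ∈ Q, q i = 0) (hQk : ∀ q ∈ Q, q k ≠ 0)
    (hQ : ∀ q ∈ Q, eval q (homogeneousComponent d g) = 0)
    (hinj : ∀ q ∈ Q, ∀ q' ∈ Q, q j / q k = q' j / q' k → q = q')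
    (R : Finset ℂ) (hR : ∀ r ∈ R, ∑ a ∈ Finset.range (D + 1), coeff (φ a (d - a)) g * r ^ a = 0)
    (hdisj : ∀ q ∈ Q, q j / q k ∉ R)
    (hcard : D < Q.card + R.card) (a : ℕ) (ha : a ≤ d) : coeff (φ a (d - a)) g = 0 := by
  classical
  by_cases haD : D < a
  · exact htop a haD ha
  refine coeffs_eq_zero (fun a => coeff (φ a (d - a)) g) D (Q.image (fun q => q j / q k) ∪ R) ?_ ?_ a
    (not_lt.1 haD)
  · rw [Finset.card_union_of_disjoint, Finset.card_image_of_injOn]
    · exact hcard
    · intro q hq q' hq' h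
      exact hinj q hq q' hq' h
    · rw [Finset.disjoint_left]
      intro r hr
      rw [Finset.mem_image] at hr
      obtain ⟨q, hq, rfl⟩ := hr
      exact hdisj q hq
  · intro r hr
    rw [Finset.mem_union] at hr
    rcases hr with hr | hr
    · rw [Finset.mem_image] at hr
      obtain ⟨q, hq, rfl⟩ := hr
      have h1 := hQ q hq
      rw [eval_binary g d q φ i j k (hQi q hq) hφj hsum (fun a b => hprod q a b (hQi q hq)) hφ] at h1
      have hk := hQk q hq
      have h2 : ∑ a ∈ Finset.range (d + 1), coeff (φ a (d - a)) g * (q j ^ a * q k ^ (d - a)) =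
          q k ^ d * ∑ a ∈ Finset.range (D + 1), coeff (φ a (d - a)) g * (q j / q k) ^ a := by
        rw [← Finset.sum_subset (Finset.range_mono (Nat.succ_le_succ hD))]
        · rw [Finset.mul_sum]
          refine Finset.sum_congr rfl fun a ha => ?_
          have ha' : a ≤ d := (Nat.lt_succ_iff.1 (Finset.mem_range.1 ha)).trans hD
          have h3 : q k ^ d = q k ^ a * q k ^ (d - a) := by
            rw [← pow_add, Nat.add_sub_cancel' ha']
          rw [h3, div_pow]
          field_simp
        · intro a ha hna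
          rw [htop a, zero_mul]
          · by_contra hcon
            exact hna (Finset.mem_range.2 (Nat.lt_succ_of_le (not_lt.1 hcon)))
          · exact Nat.lt_succ_iff.1 (Finset.mem_range.1 ha)
      rw [h2] at h1
      exact (mul_eq_zero.1 h1).resolve_left (pow_ne_zero _ hk)
    · exact hR r hr

end Cont

open Cont in
theorem idealOf_pts_le_wIdeal (C : Config) (w : Fin 3 → ℕ) (n : ℕ)
    (h : ∀ e : Fin 3 → ℕ, 4 ≤ e 0 + e 1 + e 2 → (e 0 + e 1 + e 2 < 10 → 1 ≤ e 0) →
      (e 0 + e 1 + e 2 < 8 → 1 ≤ e 1) → (e 0 + e 1 + e 2 < 6 → 1 ≤ e 2) →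
      n ≤ ∑ i, w i * e i) :
    idealOf C.pts ≤ wIdeal C.ℓ w n := by
  classical
  intro f hf
  rw [mem_wIdeal_iff C.ℓ C.indep]
  set g : S := (coord C.ℓ C.indep).symm f with hg
  have hmem : ∀ i, ∀ p ∈ C.Z i, p ∈ C.pts := fun i p hp =>
    Set.mem_insert_of_mem _ (Set.mem_iUnion.2 ⟨i, hp⟩)
  have hev : ∀ p ∈ C.pts, ∀ d, eval (co C.ℓ p) (homogeneousComponent d g) = 0 := fun p hp d =>
    eval_co_eq_zero C.ℓ C.indep C.pts f hf p hp d
  have hco : ∀ i, ∀ p ∈ C.Z i, ∀ j, co C.ℓ p j = 0 ↔ j = i := fun i p hp j => C.mem i p hp j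
  -- the coordinates of the points on a line
  have hcard : ∀ i, ((C.Z i).image (co C.ℓ)).card = ![10, 7, 4] i := by
    intro i
    rw [← C.card i, Finset.card_image_of_injective]
    intro p p' hpp
    exact eq_of_co_smul C.ℓ C.indep p' p 1 (by rw [one_smul]; exact hpp)
  have hQ : ∀ i d, ∀ q ∈ (C.Z i).image (co C.ℓ), eval q (homogeneousComponent d g) = 0 := by
    intro i d q hq
    rw [Finset.mem_image] at hq
    obtain ⟨p, hp, rfl⟩ := hq
    exact hev p (hmem i p hp) d
  have hQ0 : ∀ i, ∀ q ∈ (C.Z i).image (co C.ℓ), ∀ j, q j = 0 ↔ j = i := by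
    intro i q hq j
    rw [Finset.mem_image] at hq
    obtain ⟨p, hp, rfl⟩ := hq
    exact hco i p hp j
  have hQinj : ∀ i j k : Fin 3, (∀ l, l = i ∨ l = j ∨ l = k) → j ≠ i → k ≠ i →
      ∀ q ∈ (C.Z i).image (co C.ℓ), ∀ q' ∈ (C.Z i).image (co C.ℓ),
      q j / q k = q' j / q' k → q = q' := by
    intro i j k hl hji hki q hq q' hq' hqq
    have hk : q k ≠ 0 := fun h0 => hki ((hQ0 i q hq k).1 h0)
    have hk' : q' k ≠ 0 := fun h0 => hki ((hQ0 i q' hq' k).1 h0)
    have h1 : q' = (q' k / q k) • q := by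
      funext l
      rw [Pi.smul_apply, smul_eq_mul]
      rcases hl l with rfl | rfl | rfl
      · rw [(hQ0 l q hq l).2 rfl, (hQ0 l q' hq' l).2 rfl, mul_zero]
      · field_simp
        rw [div_eq_div_iff hk hk'] at hqq
        linear_combination -hqq
      · field_simp
    rw [Finset.mem_image] at hq hq'
    obtain ⟨p, hp, rfl⟩ := hq
    obtain ⟨p', hp', rfl⟩ := hq'
    rw [eq_of_co_smul C.ℓ C.indep p p' _ h1]
  -- step 0
  have P0 : ∀ e : Fin 3 →₀ ℕ, e 0 + e 1 + e 2 < 10 → e 0 = 0 → coeff e g = 0 := by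
    intro e hd h0
    have h1 := binary_zero g (e 1 + e 2) (e 1 + e 2) le_rfl (fun a b => ex 0 a b) 0 1 2
      (fun a b => rfl) (fun a b => by simp [Fin.sum_univ_three])
      (fun q a b _ => by simp [Fin.prod_univ_three])
      (fun e he => by conv_lhs => rw [ex_eq e, he])
      (fun a ha ha' => absurd ha (not_lt.2 ha'))
      ((C.Z 0).image (co C.ℓ)) (fun q hq => (hQ0 0 q hq 0).2 rfl)
      (fun q hq h => absurd ((hQ0 0 q hq 2).1 h) (by decide)) (hQ 0 _)
      (hQinj 0 1 2 (by decide) (by decide) (by decide)) ∅ (by simp) (by simp)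
      (by rw [hcard 0]; simp; omega) (e 1) (by omega)
    simp only [Nat.add_sub_cancel_left] at h1
    rw [ex_eq e, h0]
    exact h1
  have P1 : ∀ e : Fin 3 →₀ ℕ, e 0 + e 1 + e 2 < 8 → e 1 = 0 → coeff e g = 0 := by
    intro e hd h0
    have h1 := binary_zero g (e 0 + e 2) (e 0 + e 2) le_rfl (fun a b => ex a 0 b) 1 0 2
      (fun a b => rfl) (fun a b => by simp [Fin.sum_univ_three])
      (fun q a b _ => by simp [Fin.prod_univ_three])
      (fun e he => by conv_lhs => rw [ex_eq e, he])
      (fun a ha ha' => absurd ha (not_lt.2 ha'))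
      ((C.Z 1).image (co C.ℓ)) (fun q hq => (hQ0 1 q hq 1).2 rfl)
      (fun q hq h => absurd ((hQ0 1 q hq 2).1 h) (by decide)) (hQ 1 _)
      (hQinj 1 0 2 (by decide) (by decide) (by decide)) {0}
      (by
        intro r hr
        rw [Finset.mem_singleton] at hr
        subst hr
        refine Finset.sum_eq_zero fun a _ => ?_
        rcases Nat.eq_zero_or_pos a with rfl | ha
        · rw [P0 _ (by simp; omega) (by simp), zero_mul]
        · rw [zero_pow ha.ne', mul_zero])
      (by
        intro q hq hq0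
        rw [Finset.mem_singleton, div_eq_zero_iff] at hq0
        rcases hq0 with hq0 | hq0
        · exact absurd ((hQ0 1 q hq 0).1 hq0) (by decide)
        · exact absurd ((hQ0 1 q hq 2).1 hq0) (by decide))
      (by rw [hcard 1]; simp; omega) (e 0) (by omega)
    simp only [Nat.add_sub_cancel_left] at h1
    rw [ex_eq e, h0]
    exact h1
  have P2 : ∀ e : Fin 3 →₀ ℕ, e 0 + e 1 + e 2 < 6 → e 2 = 0 → coeff e g = 0 := by
    intro e hd h0
    rcases Nat.eq_zero_or_pos (e 1) with h10 | h10
    · exact P1 e (by omega) h10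
    have h1 := binary_zero g (e 0 + e 1) (e 0 + e 1 - 1) (Nat.sub_le _ _) (fun a b => ex a b 0) 2 0 1
      (fun a b => rfl) (fun a b => by simp [Fin.sum_univ_three])
      (fun q a b _ => by simp [Fin.prod_univ_three])
      (fun e he => by conv_lhs => rw [ex_eq e, he])
      (fun a ha ha' => by
        have : a = e 0 + e 1 := by omega
        subst this
        exact P1 _ (by simp; omega) (by simp))
      ((C.Z 2).image (co C.ℓ)) (fun q hq => (hQ0 2 q hq 2).2 rfl)
      (fun q hq h => absurd ((hQ0 2 q hq 1).1 h) (by decide)) (hQ 2 _)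
      (hQinj 2 0 1 (by decide) (by decide) (by decide)) {0}
      (by
        intro r hr
        rw [Finset.mem_singleton] at hr
        subst hr
        refine Finset.sum_eq_zero fun a _ => ?_
        rcases Nat.eq_zero_or_pos a with rfl | ha
        · rw [P0 _ (by simp; omega) (by simp), zero_mul]
        · rw [zero_pow ha.ne', mul_zero])
      (by
        intro q hq hq0
        rw [Finset.mem_singleton, div_eq_zero_iff] at hq0
        rcases hq0 with hq0 | hq0
        · exact absurd ((hQ0 2 q hq 0).1 hq0) (by decide)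
        · exact absurd ((hQ0 2 q hq 1).1 hq0) (by decide))
      (by rw [hcard 2]; simp; omega) (e 0) (by omega)
    simp only [Nat.add_sub_cancel_left] at h1
    rw [ex_eq e, h0]
    exact h1
  have P3 : ∀ e : Fin 3 →₀ ℕ, e 0 + e 1 + e 2 < 4 → coeff e g = 0 := by
    intro e hd
    by_cases h0 : e 0 = 0
    · exact P0 e (by omega) h0
    by_cases h1 : e 1 = 0
    · exact P1 e (by omega) h1
    by_cases h2 : e 2 = 0
    · exact P2 e (by omega) h2
    have he : e = ex 1 1 1 := by
      rw [ex_eq e]
      congr 1 <;> omega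
    have h3 := hev C.P (Set.mem_insert _ _) 3
    rw [eval_eq', Finset.sum_eq_single (ex 1 1 1)] at h3
    · rw [coeff_homogeneousComponent, if_pos] at h3
      · rw [he]
        refine (mul_eq_zero.1 h3).resolve_right ?_
        refine Finset.prod_ne_zero_iff.2 fun i _ => ?_
        exact pow_ne_zero _ fun h0 => C.hP i h0
      · rw [Finsupp.degree_eq_sum]
        simp [Fin.sum_univ_three]
    · intro b hb hb1
      rw [coeff_homogeneousComponent]
      split_ifs with hdeg
      · rw [Finsupp.degree_eq_sum, Fin.sum_univ_three] at hdeg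
        have hb0 : coeff b g = 0 := by
          by_cases h0 : b 0 = 0
          · exact P0 b (by omega) h0
          by_cases h1 : b 1 = 0
          · exact P1 b (by omega) h1
          by_cases h2 : b 2 = 0
          · exact P2 b (by omega) h2
          exfalso
          apply hb1
          rw [ex_eq b]
          congr 1 <;> omega
        rw [hb0, zero_mul]
      · rw [zero_mul]
    · intro hn
      rw [notMem_support_iff.1 hn, zero_mul]
  intro e he
  have hne : coeff e g ≠ 0 := mem_support_iff.1 he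
  refine h e ?_ ?_ ?_ ?_
  · by_contra hcon
    exact hne (P3 e (by omega))
  · intro hd
    by_contra hcon
    exact hne (P0 e hd (by omega))
  · intro hd
    by_contra hcon
    exact hne (P1 e hd (by omega))
  · intro hd
    by_contra hcon
    exact hne (P2 e hd (by omega))

end Pool.Agent.Helper61.MI
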